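import Pool.Agent.V11211.CI4

/-!
# Graphs of strong convex dimension two with `2n - O(log n)` edges

We construct graphs with `n` vertices and many edges which have a drawing such that the vertices
are in strictly convex position and the midpoints of the edges are in strictly convex position:
at least `2n - (2j + 2)` edges for `n ≤ 2 ^ j (2 ^ (j + 1) - 1)`, and at least `2n - (2j + 3)` edges
for `n ≤ 3 * 2 ^ j (3 * 2 ^ j - 1) / 2`:

  `n ≤`                  3,  6, 15, 28, 66, 120, 276, ...
  at least `2n - d` for `d` =  3,  4,  5,  6,  7,   8,   9, ...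

With the known upper bound `2n - 3` this gives `2n - log₂ n - 3 < g n ≤ 2n - 3`, and so
`g n / n → 2`.

The vertices are the union of a concave chain `B` of `b` points, with `b ≤ 2 ^ (j + 1) - 1` or
`b ≤ 3 * 2 ^ j - 1`, and of at most `b (b - 1) / 2` points far below `B`.

* (`V11211/CI.lean`) By a recursive construction `B` can be chosen such that `B + B` contains a
  concave chain of `2b - ⌊log₂ b⌋ - 1` points, at most `⌊log₂ b⌋ + 1` of which are of the form
  `a + a` (one less if `b < 3 * 2 ^ j`, `j = ⌊log₂ b⌋ - 1`, see `V11211/CI4.lean`): a block of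
  `k + 1` points of `B` gives the `2k + 1` sums
  `a_0 + a_0, ..., a_0 + a_k, a_1 + a_(k + 1), ..., a_k + a_(2k)`, and one continues with the
  remaining, at least `k`, points.
* (`V11211/CI2.lean`) After a small perturbation the `b (b - 1) / 2` chords of `B` have different
  slopes. For each slope `m` of a chord `uv` one can add the point `x = (L m, L m ^ 2 / 2 - H)`, with
  `L` and then `H` large, and the two edges `xu` and `xv`.
-/

set_option autoImplicit false

namespace Pool.Agent.Results.MP_f3d4cd_co.StrongConvexDrawings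

/-- The set `X` of points of the plane is in strictly convex position: no point of `X` lies in the
convex hull of the other ones. -/
def StrictlyConvex (X : Set (ℝ × ℝ)) : Prop := ∀ x ∈ X, x ∉ convexHull ℝ (X \ {x})

/-- The midpoint of `p` and `q`. -/
noncomputable def mid (p q : ℝ × ℝ) : ℝ × ℝ := (1 / 2 : ℝ) • (p + q)

/-- `f` is a drawing of the graph `G` with the vertices and the edge midpoints in strictly convex
position. -/
structure IsDrawing {n : ℕ} (G : SimpleGraph (Fin n)) (f : Fin n → ℝ × ℝ) : Prop where
  /-- different vertices are drawn as different points -/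
  inj : Function.Injective f
  /-- the midpoints of different edges are different -/
  mid_inj : ∀ u v u' v', G.Adj u v → G.Adj u' v' →
    mid (f u) (f v) = mid (f u') (f v') → s(u, v) = s(u', v')
  /-- the midpoint of an edge is not a vertex -/
  mid_ne : ∀ u v w, G.Adj u v → mid (f u) (f v) ≠ f w
  /-- the vertices are in strictly convex position -/
  vertices : StrictlyConvex (Set.range f)
  /-- the midpoints of the edges are in strictly convex position -/
  midpoints : StrictlyConvex {x | ∃ u v, G.Adj u v ∧ x = mid (f u) (f v)}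

/-- The largest number of edges of a graph with `n` vertices which has such a drawing. -/
noncomputable def g (n : ℕ) : ℕ :=
  sSup {m : ℕ | ∃ (G : SimpleGraph (Fin n)) (f : Fin n → ℝ × ℝ), IsDrawing G f ∧
    G.edgeSet.ncard = m}

theorem le_g {V I : Type} [Fintype V] [Fintype I] {F : V → ℝ × ℝ} {X : I → ℝ × ℝ}
    (hF : Pool.Agent.V11211.CI.Ex F) (hX : Pool.Agent.V11211.CI.Ex X) {P Q : I → V}
    (hPQ : ∀ i, P i ≠ Q i) (hs : ∀ i, X i = F (P i) + F (Q i)) {n : ℕ}
    (hn : Fintype.card V = n) : Fintype.card I ≤ g n := by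
  obtain ⟨G, f, h1, h2, h3, h4, h5, h6⟩ := Pool.Agent.V11211.CI.exists_graph hF hX hPQ hs hn
  rw [← h6]
  unfold g
  refine le_csSup ?_ ⟨G, f, ⟨h1, h2, h3, h4, h5⟩, rfl⟩
  refine ⟨(Set.univ : Set (Sym2 (Fin n))).ncard, ?_⟩
  rintro m ⟨G', f', -, rfl⟩
  exact Set.ncard_le_ncard (Set.subset_univ _) Set.finite_univ

/-- **Theorem.** Some graph with `n` vertices and at least `2n - (2j + 2)` edges, if
`n ≤ 2 ^ j * (2 ^ (j + 1) - 1)`, or at least `2n - (2j + 3)` edges, if
`2n ≤ 3 * 2 ^ j * (3 * 2 ^ j - 1)`, has a drawing with the vertices and the edge midpoints in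
strictly convex position. -/
theorem result (n j : ℕ) (hn : 1 ≤ n) :
    (n ≤ 2 ^ j * (2 ^ (j + 1) - 1) → 2 * n - (2 * j + 2) ≤ g n) ∧
    (2 * n ≤ 3 * 2 ^ j * (3 * 2 ^ j - 1) → 2 * n - (2 * j + 3) ≤ g n) := by
  constructor
  · intro h
    obtain ⟨V, I, _, _, F, X, P, Q, hF, hX, hPQ, hs, hV, hI⟩ :=
      Pool.Agent.V11211.CI.exists_families' (k := j + 1) (by omega) hn
        (by rw [Nat.add_sub_cancel]; exact h)
    rw [show 2 * (j + 1) = 2 * j + 2 by ring] at hI
    exact hI.trans (le_g hF hX hPQ hs hV)
  · intro h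
    obtain ⟨V, I, _, _, F, X, P, Q, hF, hX, hPQ, hs, hV, hI⟩ :=
      Pool.Agent.V11211.CI.exists_families'' hn h
    exact hI.trans (le_g hF hX hPQ hs hV)

end Pool.Agent.Results.MP_f3d4cd_co.StrongConvexDrawings
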